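import Pool.Agent.Q60.MU.Fams

/-! The Iwasawa `μ`-conjecture, primes above `p` split completely: detection by subfields, and the
reduction to fields `ℚ(v)` generated by a vector in a simple representation over `𝔽_p`. -/

set_option autoImplicit false

namespace Pool.Agent.Results.MP_d0239a_nt.DetectingSubfields

open Pool.Agent.Q60.MU IntermediateField

theorem result (p : ℕ) [Fact p.Prime] (R : ℕ → IntermediateField ℚ Qb)
    (hR : ∀ m, FiniteDimensional ℚ (R m)) (hRn : ∀ m, IsGalois ℚ (R m)) (hd : FinDec R) :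
    -- (A) detecting subfields of a Galois extension
    (∀ N : IntermediateField ℚ Qb, FiniteDimensional ℚ N → IsGalois ℚ N →
      ∀ 𝓔 : Set (IntermediateField ℚ Qb), Detecting p N 𝓔 →
      (∀ E ∈ 𝓔, MuZeroFor (splitGroup p) p R E) →
      ∀ F : IntermediateField ℚ Qb, F ≤ N → MuZeroFor (splitGroup p) p R F) ∧
    -- (B) the reduction of the conjecture to the fields generated by a vector
    ((∀ F : IntermediateField ℚ Qb, FiniteDimensional ℚ F → MuZeroFor (splitGroup p) p R F) ↔
      ∀ F : IntermediateField ℚ Qb, IsVectorField p F → ¬ p ∣ Module.finrank ℚ F →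
        MuZeroFor (splitGroup p) p R F) := by
  refine ⟨fun N hN hNn 𝓔 hdet hmu F hF =>
    field_detectFor p (split_conj p) (split_tame p) R hR hRn hd N hN hNn 𝓔 hdet hmu F hF, ?_⟩
  have hn : (⊤ : IntermediateField ℚ Qb).fixingSubgroup.Normal := by
    rw [fixingSubgroup_top]
    infer_instance
  have h1 := field_reductionFor p (split_conj p) (split_tame p) R hR hRn hd ⊤ hn
  constructor
  · rintro h F ⟨S, i1, i2, i3, τ, v, hs, ⟨N, hN, hτ⟩, hv, hF⟩ hp
    exact h1.1 (fun F hF _ => h F hF) F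
      ⟨S, i1, i2, i3, τ, v, hs, ⟨N, hN, le_top, hτ⟩, hv, hF⟩ hp
  · intro h F hF
    refine h1.2 ?_ F hF le_top
    rintro F ⟨S, i1, i2, i3, τ, v, hs, ⟨N, hN, -, hτ⟩, hv, hF⟩ hp
    exact h F ⟨S, i1, i2, i3, τ, v, hs, ⟨N, hN, hτ⟩, hv, hF⟩ hp

end Pool.Agent.Results.MP_d0239a_nt.DetectingSubfields
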