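import Pool.Agent.Q49.MU.Basic

/-!
# The Iwasawa μ-conjecture: exact reductions

Fix a prime `p`. For a number field `F` let `X F` say that `X = Gal(K(F^cyc)/F^cyc)` is finitely generated over
`ℤ_p`. Let `r F n` be the `p`-rank of the quotient of the ideal class group of the `n`-th layer `F_n` of the
cyclotomic `ℤ_p`-extension by the classes of the primes above `p`.

**Theorem.** Let `K₁` be a number field, totally imaginary if `p = 2`. The following are equivalent.

1. Q1 for `p`: `X F` holds for all number fields `F`.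
2. `X K` holds for all finite extensions `K` of `K₁` of degree prime to `p`.
3. For each number field `F` there is a bound for the `p`-ranks `r F n`, `n ≥ 0`.
4. For each finite extension `K` of `K₁` of degree prime to `p` there is a number `C` such that
   `r K n ≤ C` for infinitely many `n`.
5. (linear growth) For each finite extension `K` of `K₁` of degree prime to `p` and each `ε > 0` there are
   infinitely many `n` with `r K n ≤ ε p^n`.

Known facts (`IsSetting`): subfields; Galois extensions of `p`-power degree of fields which contain `K₁`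
(Iwasawa 1973); if `X F` holds then the `p`-ranks are bounded; if `X F` does not hold, then there is a
constant `c > 0` with `r F n ≥ c p^n` for all large `n` (the structure of `X/p` over `𝔽_p[[T]]`, and
descent up to bounded `p`-ranks).
-/

set_option autoImplicit false

namespace Pool.Agent.Results.MP_d0239a_nt.PrimeToP

open Pool.Agent.Q49.MU

/-- The known facts. -/
structure IsSetting (p : ℕ) (X : (F : Type) → [Field F] → Prop) (r : (F : Type) → [Field F] → ℕ → ℕ)
    (K₁ : Type) [Field K₁] : Prop where
  mono : Mono X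
  pext : PExt p X K₁
  bounded : ∀ (F : Type) [Field F] [NumberField F], X F → ∃ C, ∀ n, r F n ≤ C
  growth : ∀ (F : Type) [Field F] [NumberField F], ¬ X F → ∃ c : ℝ, 0 < c ∧ ∃ m, ∀ n ≥ m,
    c * (p : ℝ) ^ n ≤ r F n

/-- **The Iwasawa μ-conjecture: exact reductions.** See the explanations above. -/
theorem result (p : ℕ) [Fact p.Prime] (X : (F : Type) → [Field F] → Prop)
    (r : (F : Type) → [Field F] → ℕ → ℕ) (K₁ : Type) [Field K₁] [NumberField K₁]
    (h : IsSetting p X r K₁) : List.TFAE [
      ∀ (F : Type) [Field F] [NumberField F], X F,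
      ∀ (K : Type) [Field K] [NumberField K] [Algebra K₁ K], ¬ p ∣ Module.finrank K₁ K → X K,
      ∀ (F : Type) [Field F] [NumberField F], ∃ C, ∀ n, r F n ≤ C,
      ∀ (K : Type) [Field K] [NumberField K] [Algebra K₁ K], ¬ p ∣ Module.finrank K₁ K →
        ∃ C, ∃ᶠ n in Filter.atTop, r K n ≤ C,
      ∀ (K : Type) [Field K] [NumberField K] [Algebra K₁ K], ¬ p ∣ Module.finrank K₁ K →
        ∀ ε : ℝ, 0 < ε → ∃ᶠ n in Filter.atTop, (r K n : ℝ) ≤ ε * (p : ℝ) ^ n] := by
  have hp1 : (1 : ℝ) < p := by exact_mod_cast (Fact.out : p.Prime).one_lt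
  tfae_have 1 → 2 := fun h1 K _ _ _ _ => h1 K
  tfae_have 2 → 1 := fun h1 F _ _ => of_prime_to_p p h.mono K₁ h.pext h1 F
  tfae_have 1 → 3 := fun h1 F _ _ => h.bounded F (h1 F)
  tfae_have 3 → 4 := by
    intro h1 K _ _ _ _
    obtain ⟨C, hC⟩ := h1 K
    exact ⟨C, Filter.Frequently.of_forall hC⟩
  tfae_have 4 → 5 := by
    intro h1 K _ _ _ h2 ε hε
    obtain ⟨C, hC⟩ := h1 K h2
    have h3 : ∀ᶠ n : ℕ in Filter.atTop, (C : ℝ) / ε ≤ (p : ℝ) ^ n :=
      (tendsto_pow_atTop_atTop_of_one_lt hp1).eventually_ge_atTop _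
    refine (hC.and_eventually h3).mono fun n hn => ?_
    have h4 : (r K n : ℝ) ≤ C := by exact_mod_cast hn.1
    have h5 : (C : ℝ) ≤ ε * (p : ℝ) ^ n := by
      have := (div_le_iff₀ hε).mp hn.2
      linarith
    exact h4.trans h5
  tfae_have 5 → 2 := by
    intro h1 K _ _ _ h2
    by_contra h3
    obtain ⟨c, hc, m, hm⟩ := h.growth K h3
    obtain ⟨n, hn, h4⟩ := Filter.frequently_atTop.mp (h1 K h2 (c / 2) (by positivity)) m
    have h5 := hm n hn
    have h6 : (0 : ℝ) < (p : ℝ) ^ n := by positivity
    nlinarith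
  tfae_finish

end Pool.Agent.Results.MP_d0239a_nt.PrimeToP
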