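import Pool.Agent.Q60.MU.RealCM2

/-!
# The Iwasawa `μ`-conjecture, primes above `p` split completely: real fields and CM fields

`R 0, R 1, ...` is the tower of the layers of the cyclotomic `ℤ_p`-extension of `ℚ` (any tower of
finite Galois extensions of `ℚ` with the property `FinDec` is allowed); `c` is complex conjugation.
-/

set_option autoImplicit false

namespace Pool.Agent.Results.MP_d0239a_nt.RealAndCM

open Pool.Agent.Q60.MU IntermediateField Module

theorem result (p : ℕ) [Fact p.Prime] (R : ℕ → IntermediateField ℚ Qb)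
    (hR : ∀ m, FiniteDimensional ℚ (R m)) (hRn : ∀ m, IsGalois ℚ (R m)) (hd : FinDec R)
    (c : Gal(Qb/ℚ)) (hc : c * c = 1) :
    -- one Galois extension `N` of `ℚ`
    (∀ N : IntermediateField ℚ Qb, FiniteDimensional ℚ N → IsGalois ℚ N →
      (MuZeroFor (splitGroup p) p R N ↔
        MuZeroFor (splitGroup p) p R (realPart c N) ∧
        MuZeroFor (splitGroup p) p R (cmPart c N))) ∧
    -- all number fields
    ((∀ F : IntermediateField ℚ Qb, FiniteDimensional ℚ F → MuZeroFor (splitGroup p) p R F) ↔
      (∀ F : IntermediateField ℚ Qb, FiniteDimensional ℚ F → IsVectorField p F →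
        (∀ x ∈ F, c x = x) → MuZeroFor (splitGroup p) p R F) ∧
      ∀ E : IntermediateField ℚ Qb, CMField c E → IsVectorField p E → ¬ p ∣ finrank ℚ E →
        MuZeroFor (splitGroup p) p R E) := by
  have key := fun (N : IntermediateField ℚ Qb) (hN : FiniteDimensional ℚ N)
    (hNn : IsGalois ℚ N) (𝓔 : Set (IntermediateField ℚ Qb)) =>
      field_detectFor p (split_conj p) (split_tame p) R hR hRn hd N hN hNn 𝓔
  refine ⟨fun N hN hNn => ⟨fun h => ?_, fun h => ?_⟩, fun h => ?_, fun h F hF => ?_⟩
  · have h1 := fun F hF => key N hN hNn {N} (detecting_self p N) (fun E hE => by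
      rw [Set.mem_singleton_iff.1 hE]
      exact h) F hF
    exact ⟨h1 _ inf_le_left, h1 _ inf_le_left⟩
  · refine key N hN hNn _ (detecting_real_cm p c hc N hN) ?_ N le_rfl
    rintro E (rfl | rfl)
    · exact h.1
    · exact h.2
  · exact ⟨fun F hF _ _ => h F hF, fun E hE _ _ => h E hE.1⟩
  · have h1 := F.fixingSubgroup.normalCore_normal
    have hKo := isOpen_normalCore F.fixingSubgroup_isOpen (index_ne_zero' F)
    have hKf : F.fixingSubgroup.normalCore.index ≠ 0 := by
      have h2 : F.fixingSubgroup.FiniteIndex := ⟨index_ne_zero' F⟩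
      have : F.fixingSubgroup.normalCore.FiniteIndex := F.fixingSubgroup.finiteIndex_normalCore
      exact Subgroup.FiniteIndex.index_ne_zero
    have hfix := fix_fixed hKo
    have hNd := finite_fixed hKo hKf
    have hFN : F ≤ fixedField F.fixingSubgroup.normalCore :=
      (le_iff_le _ _).2 (Subgroup.normalCore_le _)
    have hNn : IsGalois ℚ (fixedField F.fixingSubgroup.normalCore) :=
      (InfiniteGalois.normal_iff_isGalois _).1 (by rw [hfix]; exact h1)
    refine key _ hNd hNn _ (detecting_vector p c hc _ hNd hNn) ?_ F hFN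
    rintro E ⟨hE, hv, hr | ⟨hcm, hp⟩⟩
    · exact h.1 E (finite_of_le hE hNd) hv hr
    · exact h.2 E hcm hv hp

end Pool.Agent.Results.MP_d0239a_nt.RealAndCM
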